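import Pool.Agent.Helper57.SJ.Stmts

set_option autoImplicit false

namespace Pool.Agent.Helper38.SJ

open MeasureTheory Set Filter Topology
open Pool.Agent.Helper57.SJ

/-- Markov's inequality for the integrals over intervals inside `[T, 2T]` -/
theorem st_MK2 : ST_MK2 := by
  intro f H c T hH hc hT hf hf0
  have hT0 : 0 < T := by linarith
  obtain ⟨g, hgd⟩ : ∃ g : ℝ → ℝ, g = (Icc T (2 * T)).indicator f := ⟨_, rfl⟩
  have hgint : Integrable g := by
    rw [hgd]
    exact hf.integrable_indicator measurableSet_Icc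
  have hg0 : ∀ x, 0 ≤ g x := fun x => by
    rw [hgd]
    exact indicator_nonneg (fun y _ => hf0 y) x
  have hgf : ∀ x ∈ Icc T (2 * T), g x = f x := by
    intro x hx
    rw [hgd]
    exact indicator_of_mem hx f
  have hgi : ∀ a b : ℝ, IntervalIntegrable g volume a b := fun a b => hgint.intervalIntegrable
  obtain ⟨F, hF⟩ : ∃ F : ℝ → ℝ, F = fun x => ∫ t in T..x, g t := ⟨_, rfl⟩
  have hFc : Continuous F := by
    rw [hF]
    exact intervalIntegral.continuous_primitive hgi _
  have hFi : ∀ a b : ℝ, IntervalIntegrable F volume a b := fun a b => hFc.intervalIntegrable a b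
  have hsub : ∀ a b : ℝ, F b - F a = ∫ t in a..b, g t := by
    intro a b
    rw [hF]
    exact intervalIntegral.integral_interval_sub_left (hgi _ _) (hgi _ _)
  have hmono : ∀ a b : ℝ, a ≤ b → F a ≤ F b := by
    intro a b hab
    have h1 : 0 ≤ ∫ t in a..b, g t := intervalIntegral.integral_nonneg hab fun u _ => hg0 u
    rw [← hsub] at h1
    linarith
  obtain ⟨G, hG⟩ : ∃ G : ℝ → ℝ, G = fun u => F (u + (H + 1)) - F (u - 1) := ⟨_, rfl⟩
  have hGc : Continuous G := by
    rw [hG]
    exact (hFc.comp (by fun_prop)).sub (hFc.comp (by fun_prop))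
  have hG0 : ∀ u, 0 ≤ G u := by
    intro u
    rw [hG]
    have := hmono (u - 1) (u + (H + 1)) (by linarith)
    change 0 ≤ F (u + (H + 1)) - F (u - 1)
    linarith
  have hI : ∫ t in (T - 1)..(2 * T + (H + 1)), g t = ∫ t in T..(2 * T), f t := by
    rw [intervalIntegral.integral_of_le (by linarith), intervalIntegral.integral_of_le (by linarith),
      hgd, setIntegral_indicator measurableSet_Icc, ← integral_Icc_eq_integral_Ioc]
    congr 2
    ext x
    simp only [mem_inter_iff, mem_Ioc, mem_Icc]
    constructor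
    · rintro ⟨_, h⟩
      exact h
    · rintro ⟨h1, h2⟩
      exact ⟨⟨by linarith, by linarith⟩, h1, h2⟩
  have hGint : ∫ u in T..(2 * T), G u ≤ (H + 2) * ∫ t in (T - 1)..(2 * T + (H + 1)), g t := by
    have e1 : ∫ u in T..(2 * T), G u =
        (∫ u in (T + (H + 1))..(2 * T + (H + 1)), F u) - ∫ u in (T - 1)..(2 * T - 1), F u := by
      have i1 : IntervalIntegrable (fun u => F (u + (H + 1))) volume T (2 * T) :=
        Continuous.intervalIntegrable (hFc.comp (by fun_prop)) _ _
      have i2 : IntervalIntegrable (fun u => F (u - 1)) volume T (2 * T) :=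
        Continuous.intervalIntegrable (hFc.comp (by fun_prop)) _ _
      rw [hG]
      change ∫ u in T..(2 * T), (F (u + (H + 1)) - F (u - 1)) = _
      rw [intervalIntegral.integral_sub i1 i2,
        intervalIntegral.integral_comp_add_right (fun u => F u),
        intervalIntegral.integral_comp_sub_right (fun u => F u)]
    have e2 : (∫ u in (T + (H + 1))..(2 * T + (H + 1)), F u) - ∫ u in (T - 1)..(2 * T - 1), F u =
        (∫ u in (2 * T - 1)..(2 * T + (H + 1)), F u) - ∫ u in (T - 1)..(T + (H + 1)), F u := by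
      rw [intervalIntegral.integral_interval_sub_interval_comm (hFi _ _) (hFi _ _) (hFi _ _),
        intervalIntegral.integral_symm (T - 1) (T + (H + 1)),
        intervalIntegral.integral_symm (2 * T - 1) (2 * T + (H + 1))]
      ring
    have e3 : ∫ u in (2 * T - 1)..(2 * T + (H + 1)), F u ≤ (H + 2) * F (2 * T + (H + 1)) := by
      have h1 := intervalIntegral.integral_mono_on (μ := volume)
        (show 2 * T - 1 ≤ 2 * T + (H + 1) by linarith) (hFi _ _)
        (intervalIntegrable_const (c := F (2 * T + (H + 1)))) fun x hx => hmono x _ hx.2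
      rw [intervalIntegral.integral_const, smul_eq_mul] at h1
      calc _ ≤ _ := h1
        _ = (H + 2) * F (2 * T + (H + 1)) := by ring
    have e4 : (H + 2) * F (T - 1) ≤ ∫ u in (T - 1)..(T + (H + 1)), F u := by
      have h1 := intervalIntegral.integral_mono_on (μ := volume)
        (show T - 1 ≤ T + (H + 1) by linarith)
        (intervalIntegrable_const (c := F (T - 1))) (hFi _ _) fun x hx => hmono _ x hx.1
      rw [intervalIntegral.integral_const, smul_eq_mul] at h1
      calc (H + 2) * F (T - 1) = _ := by ring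
        _ ≤ _ := h1
    rw [e1, e2, ← hsub]
    have h10 : (H + 2) * (F (2 * T + (H + 1)) - F (T - 1)) =
        (H + 2) * F (2 * T + (H + 1)) - (H + 2) * F (T - 1) := by
      ring
    rw [h10]
    linarith
  have hms : MeasurableSet {u : ℝ | c ≤ G u} := measurableSet_le measurable_const hGc.measurable
  refine ⟨(Ico T (T + 1) ∪ Ioc (2 * T - (H + 1)) (2 * T)) ∪ ({u : ℝ | c ≤ G u} ∩ Icc T (2 * T)),
    ?_, ?_, ?_⟩
  · rintro x ((hx | hx) | hx)
    · exact ⟨hx.1, by linarith [hx.2]⟩
    · exact ⟨by linarith [hx.1], hx.2⟩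
    · exact hx.2
  · have hGi : Integrable G (volume.restrict (Icc T (2 * T))) :=
      (hGc.continuousOn.integrableOn_compact isCompact_Icc)
    have h1 := mul_meas_ge_le_integral_of_nonneg (μ := volume.restrict (Icc T (2 * T)))
      (Eventually.of_forall hG0) hGi c
    rw [measureReal_restrict_apply hms] at h1
    have h2 : ∫ x in Icc T (2 * T), G x = ∫ u in T..(2 * T), G u := by
      rw [intervalIntegral.integral_of_le (by linarith), integral_Icc_eq_integral_Ioc]
    rw [h2] at h1
    have h3 : volume.real ({u : ℝ | c ≤ G u} ∩ Icc T (2 * T)) ≤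
        (H + 2) * (∫ t in T..(2 * T), f t) / c := by
      rw [le_div_iff₀ hc, ← hI, mul_comm]
      exact h1.trans hGint
    have h4 : volume.real (Ico T (T + 1)) = 1 := by
      rw [Real.volume_real_Ico_of_le (by linarith)]
      ring
    have h5 : volume.real (Ioc (2 * T - (H + 1)) (2 * T)) = H + 1 := by
      rw [Real.volume_real_Ioc_of_le (by linarith)]
      ring
    have h6 := measureReal_union_le (μ := volume)
      (Ico T (T + 1) ∪ Ioc (2 * T - (H + 1)) (2 * T)) ({u : ℝ | c ≤ G u} ∩ Icc T (2 * T))
    have h7 := measureReal_union_le (μ := volume) (Ico T (T + 1)) (Ioc (2 * T - (H + 1)) (2 * T))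
    rw [h4, h5] at h7
    have h8 : (H + 2) * (1 + (∫ t in T..(2 * T), f t) / c) =
        1 + (H + 1) + (H + 2) * (∫ t in T..(2 * T), f t) / c := by
      ring
    rw [h8]
    linarith
  · intro u hu hE
    have hu1 : T + 1 ≤ u := by
      by_contra h
      exact hE (Or.inl (Or.inl ⟨hu.1, not_le.1 h⟩))
    have hu2 : u ≤ 2 * T - (H + 1) := by
      by_contra h
      exact hE (Or.inl (Or.inr ⟨not_le.1 h, hu.2⟩))
    refine ⟨by linarith, by linarith, ?_⟩
    have h1 : ¬ c ≤ G u := fun h => hE (Or.inr ⟨h, hu⟩)
    have h2 : G u = ∫ t in (u - 1)..(u + H + 1), f t := by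
      rw [hG]
      change F (u + (H + 1)) - F (u - 1) = _
      rw [hsub, ← add_assoc]
      refine intervalIntegral.integral_congr fun x hx => ?_
      rw [uIcc_of_le (by linarith)] at hx
      exact hgf x ⟨by linarith [hx.1], by linarith [hx.2]⟩
    rw [← h2]
    exact (not_le.1 h1).le

end Pool.Agent.Helper38.SJ
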