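import Pool.Agent.Helper57.SJ.Stmts2

set_option autoImplicit false

namespace Pool.Agent.Helper38.SJ

open MeasureTheory Set Filter Topology
open Pool.Agent.Helper57.SJ
open Pool.Agent.Helper57.QZ (Pr)
open Pool.Agent.Helper57.SI (P1 P2 tl)

theorem tld_key (w : ℕ → ℝ) (hw : ∀ p, 0 ≤ w p) (y z Z : ℕ) (hz : z ≤ Z) :
    ∑ p : Pr y, (if z < (p : ℕ) ∧ (p : ℕ) ≤ Z then w p else 0) ≤
      ∑ p ∈ Nat.primesBelow (Z + 1), w p - ∑ p ∈ Nat.primesBelow (z + 1), w p := by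
  have hsub : Nat.primesBelow (z + 1) ⊆ Nat.primesBelow (Z + 1) := by
    intro p hp
    rw [Nat.mem_primesBelow] at hp ⊢
    exact ⟨by omega, hp.2⟩
  have h1 := Finset.sum_sdiff (f := w) hsub
  have h2 : ∑ p : Pr y, (if z < (p : ℕ) ∧ (p : ℕ) ≤ Z then w p else 0) =
      ∑ p ∈ Nat.primesBelow (y + 1), (if z < p ∧ p ≤ Z then w p else 0) :=
    Finset.sum_coe_sort (Nat.primesBelow (y + 1)) (fun p => if z < p ∧ p ≤ Z then w p else 0)
  rw [h2, ← Finset.sum_filter]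
  have h3 : ∑ p ∈ (Nat.primesBelow (y + 1)).filter (fun p => z < p ∧ p ≤ Z), w p ≤
      ∑ p ∈ Nat.primesBelow (Z + 1) \ Nat.primesBelow (z + 1), w p := by
    refine Finset.sum_le_sum_of_subset_of_nonneg ?_ fun p _ _ => hw p
    intro p hp
    rw [Finset.mem_filter, Nat.mem_primesBelow] at hp
    rw [Finset.mem_sdiff, Nat.mem_primesBelow, Nat.mem_primesBelow]
    exact ⟨⟨by omega, hp.1.2⟩, fun h => by omega⟩
  linarith

theorem tld_one (j y z Z : ℕ) (φ : Pr y → ℝ) (hz : z ≤ Z) :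
    ‖tl j y z φ‖ ≤ (∑ p ∈ Nat.primesBelow (Z + 1), |Real.log (p : ℝ) ^ j / (p : ℝ)| -
      ∑ p ∈ Nat.primesBelow (z + 1), |Real.log (p : ℝ) ^ j / (p : ℝ)|) + ‖tl j y Z φ‖ := by
  have h1 := tld_key (fun p => |Real.log (p : ℝ) ^ j / (p : ℝ)|) (fun p => abs_nonneg _) y z Z hz
  have h2 : ‖tl j y z φ - tl j y Z φ‖ ≤
      ∑ p : Pr y, (if z < (p : ℕ) ∧ (p : ℕ) ≤ Z then
        |Real.log ((p : ℕ) : ℝ) ^ j / ((p : ℕ) : ℝ)| else 0) := by
    unfold tl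
    rw [← Finset.sum_sub_distrib]
    refine (norm_sum_le _ _).trans (Finset.sum_le_sum fun p _ => ?_)
    have hn : ‖((Real.log ((p : ℕ) : ℝ) ^ j / ((p : ℕ) : ℝ) : ℝ) : ℂ) *
        Complex.exp (-((φ p : ℂ) * Complex.I))‖ = |Real.log ((p : ℕ) : ℝ) ^ j / ((p : ℕ) : ℝ)| := by
      rw [norm_mul, Complex.norm_real, Real.norm_eq_abs, ← neg_mul, ← Complex.ofReal_neg,
        Complex.norm_exp_ofReal_mul_I, mul_one]
    by_cases h3 : z < (p : ℕ)
    · by_cases h4 : Z < (p : ℕ)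
      · rw [if_pos h3, if_pos h4, sub_self, norm_zero, if_neg (fun h => by omega)]
      · rw [if_pos h3, if_neg h4, sub_zero, if_pos ⟨h3, by omega⟩, hn]
    · rw [if_neg h3, if_neg (fun h => h3 (by omega)), sub_zero, norm_zero,
        if_neg (fun h => h3 h.1)]
  have h5 : ‖tl j y z φ‖ ≤ ‖tl j y z φ - tl j y Z φ‖ + ‖tl j y Z φ‖ := by
    have h6 := norm_add_le (tl j y z φ - tl j y Z φ) (tl j y Z φ)
    rwa [sub_add_cancel] at h6
  linarith

/-- the trivial bound for the primes in `(z, Z]` -/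
theorem st_TLD : ST_TLD := by
  intro y z Z φ hz
  have h0 := tld_one 0 y z Z φ hz
  have h1 := tld_one 1 y z Z φ hz
  have e0 : ∀ x : ℕ, ∑ p ∈ Nat.primesBelow (x + 1), |Real.log (p : ℝ) ^ 0 / (p : ℝ)| = P1 x := by
    intro x
    unfold P1
    refine Finset.sum_congr rfl fun p _ => ?_
    rw [pow_zero, abs_of_nonneg (by positivity)]
  have e1 : ∀ x : ℕ, ∑ p ∈ Nat.primesBelow (x + 1), |Real.log (p : ℝ) ^ 1 / (p : ℝ)| = P2 x := by
    intro x
    unfold P2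
    refine Finset.sum_congr rfl fun p hp => ?_
    rw [pow_one, abs_of_nonneg (div_nonneg (Real.log_natCast_nonneg p) (Nat.cast_nonneg p))]
  rw [e0, e0] at h0
  rw [e1, e1] at h1
  exact ⟨h0, h1⟩

end Pool.Agent.Helper38.SJ
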